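import Pool.Agent.N721.SR.C2kReg
import Pool.Agent.N721.SR.C2k
import Pool.Agent.N721.SR.All

/-!
# Erdős' girth conjecture: the expander form, and spectral regularity of graphs of large girth

(1) For every `k ≥ 1` the girth conjecture for the parameter `k` is equivalent to its expander form:
there is `C` such that for each `d ≥ 1` there is a graph of girth greater than `2 k` on at most
`C d ^ k` vertices with all degrees between `d` and `C d` in which every set `X` of at most half of
the vertices has at least `d |X|` edges to its complement, and whose Laplacian has spectral gap at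
least `d / C`. (The starting hand-in `RegularForm` has degree conditions, but no expansion.)

(2) For all `k ≥ 1` and `η > 0` there is `K` such that every graph `G` on `n` vertices with girth
greater than `2 k` has a set `H` of vertices with degree sum at most `η n ^ (1 + 1/k)`, containing all
vertices of degree more than `(128 / η) n ^ (1/k)` unless it is empty, and a partition of the vertices
into at most `K` cells such that the adjacency matrix `A` of the graph without the edges at `H` and
its block average `avg A P` differ by at most `η n ^ (1/k)` in the operator norm on `ℓ²`. The norm of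
`A` itself may be of the order `n ^ (1/k)`: in operator norm, every graph of large girth and extremal
order looks like a matrix which is constant on boundedly many blocks.

Proof of (1): let `f(m)` be the maximum number of edges of a graph of girth greater than `2 k` on `m`
vertices. For an order `m` such that `f(m) / m ^ (1 + 1/k)` is nearly maximal among the orders in
`[m / 4, m]` an extremal graph has at least a constant proportion of its edges between any two
complementary sets with at least `m / 4` vertices; delete the vertices of large degree and the sets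
which expand badly. Proof of (2): after deletion there are `O(n)` closed walks of length `2 k` from
each vertex, so only boundedly many eigenvalues are larger than `η n ^ (1/k)`, and their eigenvectors
have entries `O(n ^ (-1/2))`; the cells are obtained by rounding these eigenvectors.
-/

set_option autoImplicit false

namespace Pool.Agent.Results.MP_97687e_co.ExpanderForm

open Finset

/-- the average of the entries of `A` over the block (cell of `u`) × (cell of `v`) -/
noncomputable def avg {V : Type} [Fintype V] [DecidableEq V] {K : ℕ} (A : Matrix V V ℝ)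
    (P : V → Fin K) (u v : V) : ℝ :=
  (∑ x ∈ univ.filter (fun x => P x = P u), ∑ y ∈ univ.filter (fun y => P y = P v), A x y) /
    ((#(univ.filter fun x => P x = P u) : ℝ) * (#(univ.filter fun y => P y = P v) : ℝ))

/-- the graph `G` without the edges at the vertices of `H` -/
def del {V : Type} (G : SimpleGraph V) (H : Finset V) : SimpleGraph V where
  Adj x y := G.Adj x y ∧ x ∉ H ∧ y ∉ H
  symm := ⟨fun _ _ h => ⟨h.1.symm, h.2.2, h.2.1⟩⟩
  loopless := ⟨fun _ h => G.loopless.irrefl _ h.1⟩

instance {V : Type} [DecidableEq V] (G : SimpleGraph V) [DecidableRel G.Adj] (H : Finset V) :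
    DecidableRel (del G H).Adj :=
  fun x y => inferInstanceAs (Decidable (G.Adj x y ∧ x ∉ H ∧ y ∉ H))

/-- The girth conjecture for the parameter `k`. -/
def GirthConj (k : ℕ) : Prop :=
  ∃ c : ℝ, 0 < c ∧ ∃ N : ℕ, ∀ n ≥ N, ∃ G : SimpleGraph (Fin n),
    ((2 * k : ℕ) : ℕ∞) < G.egirth ∧ c * (n : ℝ) ^ (1 + 1 / (k : ℝ)) ≤ (G.edgeSet.ncard : ℝ)

/-- The expander form: near-regular graphs of girth greater than `2 k` of every degree `d` on
`O(d ^ k)` vertices, with constant edge expansion and constant spectral gap (relative to `d`). -/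
def HasExpanders (k : ℕ) : Prop :=
  ∃ C : ℝ, ∀ d : ℕ, 1 ≤ d → ∃ (m : ℕ) (G : SimpleGraph (Fin m)) (_ : DecidableRel G.Adj),
    0 < m ∧ (m : ℝ) ≤ C * (d : ℝ) ^ k ∧ ((2 * k : ℕ) : ℕ∞) < G.egirth ∧
    (∀ x, d ≤ G.degree x ∧ (G.degree x : ℝ) ≤ C * d) ∧
    (∀ X : Finset (Fin m), 2 * #X ≤ m →
      d * #X ≤ #((X ×ˢ Xᶜ).filter fun p => G.Adj p.1 p.2)) ∧
    ∀ f : Fin m → ℝ, ∑ x, f x = 0 →
      d * ∑ x, f x ^ 2 ≤ C * ∑ x, ∑ y, G.adjMatrix ℝ x y * (f x - f y) ^ 2

section helpers

open Pool.Agent.N721.SR Pool.TH815.GR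

/-- the class of graphs of girth greater than `2 k` -/
def Cls (k : ℕ) : ∀ (V : Type), SimpleGraph V → Prop := fun _ G => ((2 * k : ℕ) : ℕ∞) < G.egirth

theorem cls_her (k : ℕ) : Her (Cls k) where
  comap V W φ G h := by
    have h1 : NC k G := (egirth_iff G (2 * k)).1 h
    exact (egirth_iff _ (2 * k)).2 (h1.comap φ)
  bot n := by
    refine (egirth_iff _ (2 * k)).2 fun v p hp => ?_
    exfalso
    have h1 : (⊥ : SimpleGraph (Fin n)).IsAcyclic := SimpleGraph.isAcyclic_bot
    exact h1 p hp

theorem cls_iff {V : Type} (k : ℕ) (G : SimpleGraph V) :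
    Cls k V G ↔ ∀ j, 3 ≤ j → j ≤ 2 * k → (SimpleGraph.cycleGraph j).Free G := by
  unfold Cls
  rw [egirth_iff]
  constructor
  · intro h j hj hjk hcon
    rw [SimpleGraph.cycleGraph_isContained_iff hj] at hcon
    obtain ⟨v, w, hw, hl⟩ := hcon
    have := h v w hw
    omega
  · intro h v p hp
    by_contra hcon
    have h3 := hp.three_le_length
    refine h p.length h3 (by omega) ?_
    rw [SimpleGraph.cycleGraph_isContained_iff h3]
    exact ⟨v, p, hp, rfl⟩

theorem cls_copG (k m n : ℕ) (hm : 0 < m) (G : SimpleGraph (Fin m)) (h : Cls k (Fin m) G) :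
    Cls k (Fin n) (copG m n hm G) := by
  rw [cls_iff] at h ⊢
  intro j hj hjk
  exact copG_free _ SimpleGraph.cycleGraph_preconnected m n hm G (h j hj hjk)

theorem cls_upper (k : ℕ) (hk : 1 ≤ k) :
    ∃ C₀ : ℝ, 0 < C₀ ∧ ∀ n : ℕ, 1 ≤ n → (cls_her k).F n ≤ C₀ * (n : ℝ) ^ (1 + 1 / (k : ℝ)) := by
  rcases Nat.lt_or_ge 1 k with h2 | h2
  · obtain ⟨C₀, hC₀, hF⟩ := bondy_simonovits h2 (c2k_her h2)
    refine ⟨C₀, hC₀, fun n hn => le_trans ?_ (hF n hn)⟩
    have h3 : (SimpleGraph.cycleGraph (2 * k)).Free ((cls_her k).best n) :=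
      (cls_iff k _).1 ((cls_her k).best_P n) (2 * k) (by omega) le_rfl
    have h4 := (c2k_her h2).le_F ((cls_her k).best n) h3 univ
    rw [card_univ, Fintype.card_fin] at h4
    exact h4
  · have hk1 : k = 1 := by omega
    subst hk1
    refine ⟨1, one_pos, fun n hn => ?_⟩
    have h1 := F_le_sq (cls_her 1) n
    have h3 : (n : ℝ) ^ ((1 : ℝ) + 1 / ((1 : ℕ) : ℝ)) = (n : ℝ) * n := by
      rw [Nat.cast_one, div_one, show (1 : ℝ) + 1 = ((2 : ℕ) : ℝ) by norm_num, Real.rpow_natCast]
      ring
    rw [h3, one_mul]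
    exact h1

theorem girthConj_iff (k : ℕ) (hk : 1 ≤ k) : GirthConj k ↔ HasExpanders k := by
  classical
  have hk0 : (0 : ℝ) < k := by exact_mod_cast hk
  set α : ℝ := 1 / (k : ℝ) with hα
  have hα0 : 0 < α := by positivity
  have hα1 : α ≤ 1 := by
    rw [hα, div_le_one hk0]
    exact_mod_cast hk
  obtain ⟨C₀, hC₀, hF⟩ := cls_upper k hk
  have key : (∃ c : ℝ, 0 < c ∧ ∃ N : ℕ, ∀ n : ℕ, N ≤ n →
      c * (n : ℝ) ^ (1 + α) ≤ (cls_her k).F n) ↔ ExpForm (Cls k) α := by
    constructor
    · rintro ⟨c, hc, N, hN⟩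
      exact (cls_her k).expForm α C₀ hα0 hα1 hC₀ hF c hc N hN
    · intro h
      exact (cls_her k).lower_of_expForm (fun m n hm G hG => cls_copG k m n hm G hG) α hα0 h
  have hdeg : ∀ (n : ℕ) (G : SimpleGraph (Fin n)), ee G univ univ = 2 * (G.edgeSet.ncard : ℝ) := by
    intro n G
    rw [ee_degree, ← Nat.cast_sum, SimpleGraph.sum_degrees_eq_twice_card_edges,
      Set.ncard_eq_toFinset_card']
    have e : G.edgeSet.toFinset = G.edgeFinset := rfl
    rw [e]
    push_cast
    rfl
  have e3 : GirthConj k ↔ ∃ c : ℝ, 0 < c ∧ ∃ N : ℕ, ∀ n : ℕ, N ≤ n →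
      c * (n : ℝ) ^ (1 + α) ≤ (cls_her k).F n := by
    constructor
    · rintro ⟨c, hc, N, hN⟩
      refine ⟨c, hc, N, fun n hn => ?_⟩
      obtain ⟨G, hG, hE⟩ := hN n hn
      have h1 := (cls_her k).le_F G hG univ
      rw [card_univ, Fintype.card_fin, hdeg] at h1
      have h2 : (0 : ℝ) ≤ (G.edgeSet.ncard : ℝ) := Nat.cast_nonneg _
      linarith
    · rintro ⟨c, hc, N, hN⟩
      refine ⟨c / 2, by positivity, N, fun n hn => ⟨(cls_her k).best n, (cls_her k).best_P n, ?_⟩⟩
      have h1 := hN n hn
      unfold Her.F at h1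
      rw [hdeg] at h1
      linarith
  have e4 : ∀ d : ℕ, (d : ℝ) ^ (1 / α) = (d : ℝ) ^ k := by
    intro d
    rw [hα, one_div_one_div, Real.rpow_natCast]
  rw [e3, key]
  unfold ExpForm HasExpanders Cls
  simp only [e4]

end helpers

theorem result :
    -- (1) the girth conjecture for `k` is equivalent to its expander form
    (∀ k : ℕ, 1 ≤ k → (GirthConj k ↔ HasExpanders k)) ∧
    -- (2) spectral regularity
    (∀ (k : ℕ) (η : ℝ), 1 ≤ k → 0 < η → ∃ K : ℕ,
      ∀ (V : Type) [Fintype V] [DecidableEq V] (G : SimpleGraph V) [DecidableRel G.Adj],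
        ((2 * k : ℕ) : ℕ∞) < G.egirth →
        ∃ (H : Finset V) (P : V → Fin K),
          ∑ x ∈ H, (G.degree x : ℝ) ≤ η * (Fintype.card V : ℝ) ^ (1 + 1 / (k : ℝ)) ∧
          (H = ∅ ∨ ∀ x ∉ H, (G.degree x : ℝ) ≤ 128 / η * (Fintype.card V : ℝ) ^ (1 / (k : ℝ))) ∧
          ∀ f g : V → ℝ,
            |∑ u, ∑ v, ((del G H).adjMatrix ℝ u v - avg ((del G H).adjMatrix ℝ) P u v) *
                f u * g v| ≤
              η * (Fintype.card V : ℝ) ^ (1 / (k : ℝ)) *
                Real.sqrt (∑ u, f u ^ 2) * Real.sqrt (∑ v, g v ^ 2)) := by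
  refine ⟨girthConj_iff, fun k η hk hη => ?_⟩
  obtain ⟨K, hK⟩ := Pool.Agent.N721.SR.regular_girth k hk η hη
  refine ⟨K, fun V _ _ G _ hG => ?_⟩
  obtain ⟨H, P, h1, h2, h3⟩ := hK V G ((Pool.TH815.GR.egirth_iff G (2 * k)).1 hG)
  refine ⟨H, P, h1, ?_, fun f g => h3 f g⟩
  by_cases hH : H = ∅
  · exact Or.inl hH
  · exact Or.inr fun x hx => (h2 x hx).resolve_right hH

end Pool.Agent.Results.MP_97687e_co.ExpanderForm
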