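import Pool.Agent.U864.OT.Print
import Pool.Agent.TH454.BW.Girth

/-!
# Graphs of large girth whose edges are printed by one-tape machines

The vertices are the `n = 2 ^ m` strings of `m` bits, in any labelling. A nondeterministic one-tape
machine with `q` states is started on a tape without input (it may carry fixed advice); the table may
depend on the place, and the tape alphabet is arbitrary. The edges of the graph are what the machine
can print: if two vertices are adjacent, then some computation of at most `T` steps to an accepting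
state leaves the `2 m` bits of their names on the places `0, …, 2 m - 1`, in some fixed order, and no
computation to an accepting state leaves there the bits of two vertices which are not adjacent. (For
instance the machine may guess the number of an edge and compute its ends in place.) If the girth is
greater than four, the number of edges satisfies (1) for all `B`, `l` with `T < B (l + 1)`. Hence
graphs of girth greater than `2 k` with the `c' n ^ (1 + 1 / k)` edges of the girth conjecture satisfy
the time-space tradeoff `T log₂ (q + 1) > δ (log₂ n)²` for each `δ < 1 / (8 k²)` (`n` large). Up to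
the constant this is best possible: the edges of every graph are printed with `T = 2 log₂ n` and
`q ≤ 2 n²`.

Proof. Two computations with the same crossing sequence at a boundary can be cut and put together
there, and their final tapes with them. If `T < B (l + 1)`, each computation used passes at least one
of any `B` consecutive boundaries at most `l` times. Hence a trellis which guesses these crossing
sequences and remembers the bits since the last one decides the adjacency. The bound for
nondeterministic decision diagrams of graphs of girth greater than four (from the library) gives the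
result.
-/

set_option autoImplicit false

namespace Pool.Agent.Results.MP_97687e_co.PrintingMachines

open Pool.Agent.H607R2.BW Pool.Agent.TH454.BW Pool.Agent.U864.OT

/-- The machine `M` prints the edges of `G` in the time `T`: started without input it can print the
bits of the names of two vertices in the order `ord` in at most `T` steps if the vertices are
adjacent, and never otherwise. -/
def PrintsEdges {m q : ℕ} (M : Machine Bool q) (ord : Fin (2 * m) ≃ Fin 2 × Fin m) (T : ℕ)
    (G : SimpleGraph (Str m)) : Prop :=
  ∀ x : Fin 2 → Str m, (G.Adj (x 0) (x 1) → PrintsIn M (bits ord x) T) ∧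
    ∀ T' : ℕ, PrintsIn M (bits ord x) T' → G.Adj (x 0) (x 1)

theorem edges_le {m q T B l : ℕ} (hB : T < B * (l + 1)) {ord : Fin (2 * m) ≃ Fin 2 × Fin m}
    {M : Machine Bool q} {G : SimpleGraph (Str m)} (hM : PrintsEdges M ord T G)
    (hG : 4 < G.egirth) :
    2 * Nat.card G.edgeSet ≤ ((q + 1) ^ l + 1) ^ 2 * 2 ^ (B + 1) * m * 2 ^ m := by
  refine girth_nobdd_bound m _ G ?_ hG
  exact nobdd_of_machine (blind M) ord (printed M) hB
    (fun x hx => (good_blind M (bits ord x) T).2 ((hM x).1 hx))
    (fun x T' h => (hM x).2 T' ((good_blind M (bits ord x) T').1 h))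

theorem result :
    -- (1) the bound
    (∀ (m q T B l : ℕ) (ord : Fin (2 * m) ≃ Fin 2 × Fin m) (M : Machine Bool q)
      (G : SimpleGraph (Str m)), T < B * (l + 1) → PrintsEdges M ord T G → 4 < G.egirth →
      2 * Nat.card G.edgeSet ≤ ((q + 1) ^ l + 1) ^ 2 * 2 ^ (B + 1) * m * 2 ^ m) ∧
    -- (2) the tradeoff for the graphs of the girth conjecture
    (∀ (k : ℕ) (c' δ : ℝ), 2 ≤ k → 0 < c' → δ < 1 / (8 * (k : ℝ) ^ 2) → ∃ m₀ : ℕ,
      ∀ (m q T : ℕ) (ord : Fin (2 * m) ≃ Fin 2 × Fin m) (M : Machine Bool q)
      (G : SimpleGraph (Str m)), m₀ ≤ m → PrintsEdges M ord T G →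
      ((2 * k : ℕ) : ℕ∞) < G.egirth →
      c' * ((2 : ℝ) ^ m) ^ (1 + 1 / (k : ℝ)) ≤ Nat.card G.edgeSet →
      δ * (m : ℝ) ^ 2 < T * Real.logb 2 (q + 1)) ∧
    -- (3) up to the constant the tradeoff is best possible
    (∀ (m : ℕ) (ord : Fin (2 * m) ≃ Fin 2 × Fin m) (G : SimpleGraph (Str m)),
      ∃ (q : ℕ) (M : Machine Bool q), q ≤ 2 ^ (2 * m + 1) ∧ PrintsEdges M ord (2 * m) G) := by
  refine ⟨fun m q T B l ord M G hB hM hG => edges_le hB hM hG, ?_, ?_⟩
  · intro k c' δ hk hc' hδ
    have hk1 : (2 : ℝ) ≤ k := by exact_mod_cast hk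
    have hγ : (0 : ℝ) < 1 / k := by positivity
    have hδ' : δ < (1 / (k : ℝ)) ^ 2 / (8 * ((1 : ℕ) : ℝ)) := by
      rw [div_pow, one_pow, div_div, Nat.cast_one, mul_one, mul_comm]
      exact hδ
    obtain ⟨m₀, h⟩ := small_product (r := 1) le_rfl hγ hδ' 1 (half_pos hc')
    refine ⟨m₀, fun m q T ord M G hm hM hG hE => ?_⟩
    by_contra hcon
    rw [not_lt] at hcon
    have hq : 1 ≤ q := Nat.one_le_iff_ne_zero.2 (by rintro rfl; exact M.start.elim0)
    obtain ⟨B, l, h1, h2⟩ := h m q T hm hq hcon
    have h4g : 4 < G.egirth := by
      refine lt_of_le_of_lt ?_ hG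
      have : (4 : ℕ∞) = ((4 : ℕ) : ℕ∞) := rfl
      rw [this]
      exact_mod_cast (show 4 ≤ 2 * k by omega)
    have h3 := edges_le h1 hM h4g
    rw [pow_one] at h2
    have h4 : (Nat.card G.edgeSet : ℝ) ≤
        ((1 : ℕ) : ℝ) * ((((q + 1) ^ l + 1) ^ 2 * 2 ^ (B + 1) : ℕ) * m * 2 ^ m) := by
      have h5 : Nat.card G.edgeSet ≤
          1 * (((q + 1) ^ l + 1) ^ 2 * 2 ^ (B + 1) * m * 2 ^ m) := by omega
      exact_mod_cast h5
    have h6 := h4.trans h2
    have h7 : (0 : ℝ) < ((2 : ℝ) ^ m) ^ (1 + 1 / (k : ℝ)) := by positivity
    nlinarith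
  · intro m ord G
    refine ⟨_, printer (2 * m) (fun w => ∃ x, bits ord x = w ∧ G.Adj (x 0) (x 1)), ?_, ?_⟩
    · have := card_short_le Bool (by simp) (2 * m + 1)
      simpa using this
    · intro x
      have h := printer_prints (2 * m) (fun w => ∃ x, bits ord x = w ∧ G.Adj (x 0) (x 1))
        (bits ord x) (by simp [bits])
      refine ⟨fun hx => h.1 ⟨x, rfl, hx⟩, fun T' hx => ?_⟩
      obtain ⟨y, h1, h2⟩ := h.2 T' hx
      rwa [← bits_injective ord h1]

end Pool.Agent.Results.MP_97687e_co.PrintingMachines
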