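import Pool.Agent.U286.RK.Main

set_option autoImplicit false

/-!
# The extremal graphs of the girth conjecture have large rank over every field (MP_97687e_co)

Let `G` be a graph on `n` vertices of girth `> 2 k`, and let `M` be a matrix over any field with the
pattern of `G`: for `x ≠ y` the entry `M x y` is not `0` if and only if `x` and `y` are adjacent (the
nonzero entries and the diagonal are arbitrary). If `G` has at least `d n` edges, then `M` has rank at
least `d ^ (k - 1)`. So, for `k ≥ 2`, the graphs with `c n ^ (1 + 1 / k)` edges which the girth conjecture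
asks for have rank at least `c' n ^ (1 - 1 / k)` over every field.

More generally, if the edges of `G` are covered by the supports of `L` matrices over arbitrary fields
(with symmetric zero patterns), and `G` has at least `L d n` edges, then one of the matrices has rank at
least `d ^ (k - 1)`.

Hence graphs with few terms or terms of few symbols are far from the conjecture. Let the vertices have
names, strings of `m` symbols from an alphabet with `q` letters, and let each of the `L` matrices be a sum
over its field of arbitrarily many terms, each of which depends on at most `D` symbols of the name of `x`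
and in an arbitrary way on `y` (for instance a polynomial of degree at most `D` in the symbols of `x`,
the coefficients being arbitrary functions of `y`). Then `d ^ (k - 1) ≤ (m q + 1) ^ D`, if there are at
least `L d n` edges. For fixed `D`, `L`, `q` and `m = O(log n)` there are only
`O(n (log n) ^ (D / (k - 1)))` edges.

Proof. A subgraph with an induced vertex set `S` has minimum degree `> d` (starting library
`E8helper65/RG`). Let `v₀ ∈ S`. The number of vertices `x` reached by paths of length `k - 1` inside `S` is
at least `d ^ (k - 1)` (starting library `E8helper87/RG`), and each of them has a neighbour `w_x` on no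
such path to `x`. As the girth is `> 2 k`, `x` and `w_y` are not adjacent for `x ≠ y`. So the rows `x` and
columns `w_x` of `M` form a nonsingular diagonal matrix.
-/

namespace Pool.Agent.Results.MP_97687e_co.RanksOverFields

open SimpleGraph Pool.Agent.U286.RK

theorem result :
    -- (1) edges covered by the supports of `L` matrices
    (∀ (n k d L : ℕ) (G : SimpleGraph (Fin n)), 0 < n → 1 ≤ k → 1 ≤ d → 1 ≤ L →
      ((2 * k : ℕ) : ℕ∞) < G.egirth → L * (d * n) ≤ G.edgeSet.ncard →
      ∀ (K : Fin L → Type) [∀ l, Field (K l)] (M : ∀ l, Matrix (Fin n) (Fin n) (K l)),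
        (∀ l x y, M l x y ≠ 0 → M l y x ≠ 0) →
        (∀ x y, x ≠ y → (G.Adj x y ↔ ∃ l, M l x y ≠ 0)) → ∃ l, d ^ (k - 1) ≤ (M l).rank) ∧
    -- (2) the extremal graphs
    (∀ (k : ℕ) (c : ℝ), 2 ≤ k → 0 < c → ∃ c' : ℝ, 0 < c' ∧ ∃ N : ℕ, ∀ n : ℕ, N ≤ n →
      ∀ G : SimpleGraph (Fin n), ((2 * k : ℕ) : ℕ∞) < G.egirth →
        c * (n : ℝ) ^ (1 + 1 / (k : ℝ)) ≤ G.edgeSet.ncard →
        ∀ (K : Type) [Field K] (M : Matrix (Fin n) (Fin n) K),
          (∀ x y, x ≠ y → (G.Adj x y ↔ M x y ≠ 0)) → c' * (n : ℝ) ^ (1 - 1 / (k : ℝ)) ≤ M.rank) ∧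
    -- (3) sums of functions of few symbols
    (∀ (n k d L m D : ℕ) (G : SimpleGraph (Fin n)) (α : Type) [Fintype α] (a : Fin n → Fin m → α),
      0 < n → 1 ≤ k → 1 ≤ d → 1 ≤ L →
      ((2 * k : ℕ) : ℕ∞) < G.egirth → L * (d * n) ≤ G.edgeSet.ncard →
      ∀ (K : Fin L → Type) [∀ l, Field (K l)] (M : ∀ l, Matrix (Fin n) (Fin n) (K l)),
        (∀ l x y, M l x y ≠ 0 → M l y x ≠ 0) →
        (∀ x y, x ≠ y → (G.Adj x y ↔ ∃ l, M l x y ≠ 0)) → (∀ l, FewSymbols a D (M l)) →
        d ^ (k - 1) ≤ (m * Fintype.card α + 1) ^ D) := by
  refine ⟨fun n k d L G hn hk hd hL hG hE K _ M hs hM => ?_, fun k c hk hc => rank_asy k hk c hc,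
    fun n k d L m D G α _ a hn hk hd hL hG hE K _ M hs hM hf => ?_⟩
  · exact rank_union G hk hn hd hL hG M hs hM hE
  · obtain ⟨l, hl⟩ := rank_union G hk hn hd hL hG M hs hM hE
    exact hl.trans (rank_few a D (M l) (hf l))

end Pool.Agent.Results.MP_97687e_co.RanksOverFields
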