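import Pool.Agent.Y393.SG.Conv

/-!
# The girth conjecture is a statement about improper colourings of graphs on surfaces

A graph is `(0, k)`-colourable if its vertices can be split into an independent set and a set which
induces a graph of maximum degree at most `k`. Every graph of girth at least `6 m + 1` on a surface
of Euler genus `g ≥ 1` is `(0, ⌊29 g ^ (1 / (m + 1))⌋)`-colourable. For every `m ≥ 1` and every `l`
with `6 m + 1 ≤ l ≤ 6 m + 6` the girth conjecture for the parameter `m` holds if and only if this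
is sharp up to the constant, for girth at least `l` and all large `g`. So the whole conjecture says
exactly that for every `l ≥ 7` the bound `29 g ^ (1 / ⌊(l + 5) / 6⌋)` has the right order of
magnitude. The same holds for every other rate of growth, and for upper bounds.
-/

set_option autoImplicit false

namespace Pool.Agent.Results.MP_97687e_co.SurfaceColourings

open Pool.Agent.H968R3 (ZeroCol EmbedsEulerGenus)
open Pool.Agent.Y393.SG

/-- The girth conjecture for the parameter `m`. -/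
def GirthConj (m : ℕ) : Prop :=
  ∃ c : ℝ, 0 < c ∧ ∃ N : ℕ, ∀ n ≥ N, ∃ G : SimpleGraph (Fin n),
    ((2 * m : ℕ) : ℕ∞) < G.egirth ∧ c * (n : ℝ) ^ (1 + 1 / (m : ℝ)) ≤ (G.edgeSet.ncard : ℝ)

/-- For some `κ > 0` and all large `g` some finite graph of girth at least `l` embeds on a surface
of Euler genus `g` and is not `(0, ⌊κ g ^ β⌋)`-colourable. -/
def Sharp (l : ℕ) (β : ℝ) : Prop :=
  ∃ κ : ℝ, 0 < κ ∧ ∃ g₀ : ℕ, ∀ g ≥ g₀, ∃ (V : Type) (_ : Finite V) (G : SimpleGraph V),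
    (l : ℕ∞) ≤ G.egirth ∧ EmbedsEulerGenus G g ∧ ¬ ZeroCol G ⌊κ * (g : ℝ) ^ β⌋₊

theorem div_eq {m : ℕ} (hm : 1 ≤ m) : (1 / (m : ℝ)) / (1 + 1 / (m : ℝ)) = 1 / ((m : ℝ) + 1) := by
  have : (m : ℝ) ≠ 0 := by positivity
  field_simp

theorem girthConj_iff {m l : ℕ} (hm : 1 ≤ m) (hl : 6 * m + 1 ≤ l) (hl2 : l ≤ 6 * m + 6) :
    GirthConj m ↔ Sharp l (1 / ((m : ℝ) + 1)) := by
  have h := equiv (m := m) (l := l) (α := 1 / (m : ℝ)) hm (by positivity) hl hl2
  rw [div_eq hm] at h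
  exact h.symm

theorem result :
    -- (1) the girth conjecture for one parameter
    (∀ m l : ℕ, 1 ≤ m → 6 * m + 1 ≤ l → l ≤ 6 * m + 6 →
      (GirthConj m ↔ Sharp l (1 / ((m : ℝ) + 1)))) ∧
    -- (2) the whole girth conjecture
    ((∀ m : ℕ, 1 ≤ m → GirthConj m) ↔ ∀ l : ℕ, 7 ≤ l → Sharp l (1 / (((l + 5) / 6 : ℕ) : ℝ))) ∧
    -- the upper bound which is or is not sharp
    (∀ l : ℕ, 7 ≤ l → ∀ g : ℕ, 1 ≤ g → ∀ (V : Type) [Finite V] (G : SimpleGraph V),
      (l : ℕ∞) ≤ G.egirth → EmbedsEulerGenus G g →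
        ZeroCol G ⌊29 * (g : ℝ) ^ (1 / (((l + 5) / 6 : ℕ) : ℝ))⌋₊) ∧
    -- every other rate of growth
    ∀ (m l : ℕ) (α : ℝ), 1 ≤ m → 6 * m + 1 ≤ l → l ≤ 6 * m + 6 → 0 < α →
      -- (3) constructions
      ((∃ c : ℝ, 0 < c ∧ ∃ N : ℕ, ∀ n ≥ N, ∃ G : SimpleGraph (Fin n),
          ((2 * m : ℕ) : ℕ∞) < G.egirth ∧ c * (n : ℝ) ^ (1 + α) ≤ (G.edgeSet.ncard : ℝ)) ↔
        Sharp l (α / (1 + α))) ∧
      -- (4) upper bounds
      ((∃ C : ℝ, 0 < C ∧ ∀ (n : ℕ) (G : SimpleGraph (Fin n)), ((2 * m : ℕ) : ℕ∞) < G.egirth →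
          (G.edgeSet.ncard : ℝ) ≤ C * (n : ℝ) ^ (1 + α)) ↔
        ∃ C : ℝ, 0 < C ∧ ∀ g : ℕ, 1 ≤ g → ∀ (V : Type) [Finite V] (G : SimpleGraph V),
          (l : ℕ∞) ≤ G.egirth → EmbedsEulerGenus G g →
            ZeroCol G ⌊C * (g : ℝ) ^ (α / (1 + α))⌋₊) := by
  refine ⟨fun m l hm hl hl2 => girthConj_iff hm hl hl2, ⟨?_, ?_⟩, ?_, ?_⟩
  · intro h l hl
    have h1 := (girthConj_iff (m := (l - 1) / 6) (l := l) (by omega) (by omega) (by omega)).1
      (h _ (by omega))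
    have e : (((l - 1) / 6 : ℕ) : ℝ) + 1 = (((l + 5) / 6 : ℕ) : ℝ) := by
      have : (l + 5) / 6 = (l - 1) / 6 + 1 := by omega
      rw [this]; push_cast; ring
    rwa [e] at h1
  · intro h m hm
    refine (girthConj_iff (m := m) (l := 6 * m + 1) hm (by omega) (by omega)).2 ?_
    have h1 := h (6 * m + 1) (by omega)
    have e : (((6 * m + 1 + 5) / 6 : ℕ) : ℝ) = (m : ℝ) + 1 := by
      have : (6 * m + 1 + 5) / 6 = m + 1 := by omega
      rw [this]; push_cast; ring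
    rwa [e] at h1
  · intro l hl g hg V _ G h1 h2
    have h := upper (m := (l - 1) / 6) (by omega) (by omega : 6 * ((l - 1) / 6) + 1 ≤ l) hg V G
      h1 h2
    have e : (((l - 1) / 6 : ℕ) : ℝ) + 1 = (((l + 5) / 6 : ℕ) : ℝ) := by
      have : (l + 5) / 6 = (l - 1) / 6 + 1 := by omega
      rw [this]; push_cast; ring
    rw [e] at h
    exact h
  · intro m l α hm hl hl2 hα
    exact ⟨(equiv hm hα hl hl2).symm, (adm_iff_ex hm hα hl hl2).symm⟩

end Pool.Agent.Results.MP_97687e_co.SurfaceColourings
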